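import Pool.Agent.helper20.Sz.B1

/-! Module SZ-DD: the bar complex is a complex. -/

open scoped symmDiff

namespace Pool.Agent.helper20.Sz
namespace DD
variable {X E : Type} [DecidableEq X] [Fintype E] [DecidableEq E] {K : Cube X E}

open Classical in
/-- coefficient of the part of types A and C -/
noncomputable def ca (K : Cube X E) (s0 : Bool) (u w : Finset X) (𝒟 : Finset (Finset E)) :
    ZMod 2 :=
  if w ⊆ u ∧ (∀ c ∈ u \ w, K.Nsep 𝒟 c) ∧ K.AC s0 u (u \ w) then 1 else 0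

open Classical in
/-- coefficient of the part which inserts `D` -/
noncomputable def cb (K : Cube X E) (u w : Finset X) (𝒟 : Finset (Finset E)) (D : Finset E) :
    ZMod 2 :=
  if w ⊆ u ∧ (∀ c ∈ u \ w, K.Nsep 𝒟 c) ∧ K.num u + (u \ w).card = K.num w ∧ D ∉ 𝒟 ∧
    (∀ c ∈ u \ w, K.tail c ∈ D ∧ K.head c ∉ D) then 1 else 0

theorem delF_eq (s0 : Bool) (ψ : W X E) (u : Finset X) (𝒟 : Finset (Finset E))
    (S : Finset (Finset X)) (hS : u.powerset ⊆ S) :
    K.delF s0 ψ u 𝒟 = ∑ w ∈ S, (ca K s0 u w 𝒟 * ψ w 𝒟 +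
      ∑ D : Finset E, cb K u w 𝒟 D * ψ w (insert D 𝒟)) := by
  classical
  unfold Cube.delF
  rw [← Finset.sum_subset hS]
  · refine Finset.sum_congr rfl fun w hw => ?_
    have hw' : w ⊆ u := Finset.mem_powerset.1 hw
    unfold ca cb
    by_cases h1 : ∀ c ∈ u \ w, K.Nsep 𝒟 c
    · rw [if_pos h1]
      congr 1
      · by_cases h2 : K.AC s0 u (u \ w)
        · rw [if_pos h2, if_pos ⟨hw', h1, h2⟩, one_mul]
        · rw [if_neg h2, if_neg (fun h => h2 h.2.2), zero_mul]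
      · by_cases h2 : K.num u + (u \ w).card = K.num w
        · rw [if_pos h2, Finset.sum_filter]
          refine Finset.sum_congr rfl fun D _ => ?_
          by_cases h3 : D ∉ 𝒟 ∧ ∀ c ∈ u \ w, K.tail c ∈ D ∧ K.head c ∉ D
          · rw [if_pos h3, if_pos ⟨hw', h1, h2, h3.1, h3.2⟩, one_mul]
          · rw [if_neg h3, if_neg (fun h => h3 ⟨h.2.2.2.1, h.2.2.2.2⟩), zero_mul]
        · rw [if_neg h2]
          symm
          refine Finset.sum_eq_zero fun D _ => ?_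
          rw [if_neg (fun h => h2 h.2.2.1), zero_mul]
    · rw [if_neg h1, if_neg (fun h => h1 h.2.1), zero_mul, zero_add]
      symm
      refine Finset.sum_eq_zero fun D _ => ?_
      rw [if_neg (fun h => h1 h.2.1), zero_mul]
  · intro w _ hw
    have hw' : ¬ w ⊆ u := fun h => hw (Finset.mem_powerset.2 h)
    unfold ca cb
    rw [if_neg (fun h => hw' h.1), zero_mul, zero_add]
    refine Finset.sum_eq_zero fun D _ => ?_
    rw [if_neg (fun h => hw' h.1), zero_mul]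

theorem del_apply (s0 : Bool) (ψ : W X E) (u : Finset X) (𝒟 : Finset (Finset E)) :
    K.del s0 ψ u 𝒟 = K.delF s0 ψ u 𝒟 := rfl

theorem sd_sub {u w : Finset X} (h : w ⊆ u) : w ∆ (u \ w) = u := by
  ext x
  simp only [Finset.mem_symmDiff, Finset.mem_sdiff]
  constructor
  · rintro (⟨h1, _⟩ | ⟨⟨h1, _⟩, _⟩)
    · exact h h1
    · exact h1
  · intro hx
    by_cases h' : x ∈ w
    · left; exact ⟨h', fun h'' => h''.2 h'⟩
    · right; exact ⟨⟨hx, h'⟩, h'⟩

theorem valid_up (hK : K.IsCore) {u w : Finset X} {𝒟 : Finset (Finset E)} (hw : w ⊆ u)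
    (hn : ∀ c ∈ u \ w, K.Nsep 𝒟 c) (h : K.Valid w 𝒟) : K.Valid u 𝒟 := by
  refine ⟨h.ne, h.top, fun D hD x y hxy => ?_, h.chain⟩
  have := B1.inv_flip hK (fun x => x ∈ D) w (u \ w)
    (fun x y hxy => propext (h.sat D hD x y hxy))
    (fun c hc => propext (hn c hc D hD)) x y
  rw [sd_sub hw] at this
  exact iff_of_eq (this hxy)

theorem valid_mono {w : Finset X} {𝒟 𝒟' : Finset (Finset E)} (h : K.Valid w 𝒟')
    (hs : 𝒟 ⊆ 𝒟') : K.Valid w 𝒟 :=
  ⟨fun D hD => h.ne D (hs hD), fun D hD => h.top D (hs hD), fun D hD => h.sat D (hs hD),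
    fun D hD D' hD' => h.chain D (hs hD) D' (hs hD')⟩

theorem del_supp (hK : K.IsCore) (s0 : Bool) (ψ : W X E) (h : K.Supp ψ) :
    K.Supp (K.del s0 ψ) := by
  classical
  intro u 𝒟 hne
  rw [del_apply, delF_eq s0 ψ u 𝒟 u.powerset (Finset.Subset.refl _)] at hne
  obtain ⟨w, hw, hw2⟩ := Finset.exists_ne_zero_of_sum_ne_zero hne
  by_cases h1 : ca K s0 u w 𝒟 * ψ w 𝒟 = 0
  · rw [h1, zero_add] at hw2
    obtain ⟨D, _, hD⟩ := Finset.exists_ne_zero_of_sum_ne_zero hw2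
    have h2 := left_ne_zero_of_mul hD
    have h3 := right_ne_zero_of_mul hD
    unfold cb at h2
    split_ifs at h2 with h4
    · exact valid_up hK h4.1 h4.2.1 (valid_mono (h w _ h3) (Finset.subset_insert _ _))
    · exact absurd rfl h2
  · have h2 := left_ne_zero_of_mul h1
    have h3 := right_ne_zero_of_mul h1
    unfold ca at h2
    split_ifs at h2 with h4
    · exact valid_up hK h4.1 h4.2.1 (h w _ h3)
    · exact absurd rfl h2

theorem reidx1 {u v : Finset X} (hv : v ⊆ u) (f : Finset X → ZMod 2)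
    (hf : ∀ w, w ⊆ u → ¬ v ⊆ w → f w = 0) :
    ∑ w ∈ u.powerset, f w = ∑ A ∈ (u \ v).powerset, f (u \ A) := by
  classical
  rw [← Finset.sum_filter_add_sum_filter_not u.powerset (fun w => v ⊆ w)]
  have h0 : ∑ w ∈ u.powerset.filter (fun w => ¬ v ⊆ w), f w = 0 :=
    Finset.sum_eq_zero fun w hw => by
      rw [Finset.mem_filter, Finset.mem_powerset] at hw
      exact hf w hw.1 hw.2
  rw [h0, add_zero]
  refine Finset.sum_bij' (fun w _ => u \ w) (fun A _ => u \ A) ?_ ?_ ?_ ?_ ?_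
  · intro w hw
    rw [Finset.mem_filter, Finset.mem_powerset] at hw
    rw [Finset.mem_powerset]
    exact Finset.sdiff_subset_sdiff (Finset.Subset.refl _) hw.2
  · intro A hA
    rw [Finset.mem_powerset] at hA
    rw [Finset.mem_filter, Finset.mem_powerset]
    refine ⟨Finset.sdiff_subset, fun x hx => ?_⟩
    rw [Finset.mem_sdiff]
    refine ⟨hv hx, fun hxA => ?_⟩
    exact (Finset.mem_sdiff.1 (hA hxA)).2 hx
  · intro w hw
    rw [Finset.mem_filter, Finset.mem_powerset] at hw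
    exact Finset.sdiff_sdiff_eq_self hw.1
  · intro A hA
    rw [Finset.mem_powerset] at hA
    exact Finset.sdiff_sdiff_eq_self (hA.trans Finset.sdiff_subset)
  · intro w hw
    rw [Finset.mem_filter, Finset.mem_powerset] at hw
    rw [Finset.sdiff_sdiff_eq_self hw.1]

theorem reidx2 {u v : Finset X} (hv : v ⊆ u) (f : Finset X → ZMod 2)
    (hf : ∀ w, w ⊆ u → ¬ v ⊆ w → f w = 0) :
    ∑ w ∈ u.powerset, f w = ∑ A ∈ (u \ v).powerset, f (u \ ((u \ v) \ A)) := by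
  classical
  rw [reidx1 hv f hf]
  refine Finset.sum_bij' (fun A _ => (u \ v) \ A) (fun A _ => (u \ v) \ A) ?_ ?_ ?_ ?_ ?_
  · intro A hA
    exact Finset.mem_powerset.2 Finset.sdiff_subset
  · intro A hA
    exact Finset.mem_powerset.2 Finset.sdiff_subset
  · intro A hA
    exact Finset.sdiff_sdiff_eq_self (Finset.mem_powerset.1 hA)
  · intro A hA
    exact Finset.sdiff_sdiff_eq_self (Finset.mem_powerset.1 hA)
  · intro A hA
    rw [Finset.sdiff_sdiff_eq_self (Finset.mem_powerset.1 hA)]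

theorem sd_of_sub {u A : Finset X} (h : A ⊆ u) : u ∆ A = u \ A := by
  ext x
  simp only [Finset.mem_symmDiff, Finset.mem_sdiff]
  constructor
  · rintro (h1 | ⟨h1, h2⟩)
    · exact h1
    · exact absurd (h h1) h2
  · intro h1; exact Or.inl h1

theorem part1 (s0 : Bool) (hYY : K.YYP s0) {u v : Finset X} (hv : v ⊆ u)
    (𝒟 : Finset (Finset E)) :
    ∑ w ∈ u.powerset, ca K s0 u w 𝒟 * ca K s0 w v 𝒟 = 0 := by
  classical
  rw [reidx1 hv]
  swap
  · intro w _ hw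
    unfold ca
    rw [if_neg (c := v ⊆ w ∧ _) (fun h => hw h.1), mul_zero]
  by_cases hn : ∀ c ∈ u \ v, K.Nsep 𝒟 c
  · rw [← hYY u (u \ v) (fun c hc c' hc' => ⟨fun _ => (Finset.mem_sdiff.1 hc').1,
      fun _ => (Finset.mem_sdiff.1 hc).1⟩)]
    refine Finset.sum_congr rfl fun A hA => ?_
    rw [Finset.mem_powerset] at hA
    have hAu : A ⊆ u := hA.trans Finset.sdiff_subset
    have e1 : u \ (u \ A) = A := Finset.sdiff_sdiff_eq_self hAu
    have e2 : (u \ A) \ v = (u \ v) \ A := by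
      ext x; simp only [Finset.mem_sdiff]; tauto
    have e3 : v ⊆ u \ A := fun x hx => Finset.mem_sdiff.2 ⟨hv hx, fun h => (Finset.mem_sdiff.1 (hA h)).2 hx⟩
    have n1 : ∀ c ∈ A, K.Nsep 𝒟 c := fun c hc => hn c (hA hc)
    have n2 : ∀ c ∈ (u \ v) \ A, K.Nsep 𝒟 c := fun c hc => hn c (Finset.mem_sdiff.1 hc).1
    unfold ca
    rw [e1, e2, sd_of_sub hAu]
    by_cases h1 : K.AC s0 u A
    · rw [if_pos ⟨Finset.sdiff_subset, n1, h1⟩, one_mul]
      by_cases h2 : K.AC s0 (u \ A) ((u \ v) \ A)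
      · rw [if_pos ⟨e3, n2, h2⟩, if_pos ⟨h1, h2⟩]
      · rw [if_neg (fun h => h2 h.2.2), if_neg (fun h => h2 h.2)]
    · rw [if_neg (fun h => h1 h.2.2), zero_mul, if_neg (fun h => h1 h.1)]
  · refine Finset.sum_eq_zero fun A hA => ?_
    rw [Finset.mem_powerset] at hA
    have hAu : A ⊆ u := hA.trans Finset.sdiff_subset
    have e1 : u \ (u \ A) = A := Finset.sdiff_sdiff_eq_self hAu
    unfold ca
    rw [e1]
    by_cases h1 : ∀ c ∈ A, K.Nsep 𝒟 c
    · rw [if_neg (c := v ⊆ u \ A ∧ _), mul_zero]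
      rintro ⟨_, h2, _⟩
      apply hn
      intro c hc
      by_cases hcA : c ∈ A
      · exact h1 c hcA
      · exact h2 c (Finset.mem_sdiff.2 ⟨Finset.mem_sdiff.2 ⟨(Finset.mem_sdiff.1 hc).1, hcA⟩,
          (Finset.mem_sdiff.1 hc).2⟩)
    · rw [if_neg (fun h => h1 h.2.1), zero_mul]

theorem part2 (s0 : Bool) (hGI : K.GIP s0) {u v : Finset X} (hv : v ⊆ u)
    (𝒟 : Finset (Finset E)) (D : Finset E) (hval : K.Valid v (insert D 𝒟)) :
    ∑ w ∈ u.powerset, (ca K s0 u w 𝒟 * cb K w v 𝒟 D +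
      cb K u w 𝒟 D * ca K s0 w v (insert D 𝒟)) = 0 := by
  classical
  by_cases hD : D ∈ 𝒟
  · refine Finset.sum_eq_zero fun w _ => ?_
    unfold cb
    rw [if_neg (fun h => h.2.2.2.1 hD), if_neg (fun h => h.2.2.2.1 hD), mul_zero, zero_mul,
      add_zero]
  by_cases hn : ∀ c ∈ u \ v, K.Nsep 𝒟 c
  swap
  · refine Finset.sum_eq_zero fun w hw => ?_
    rw [Finset.mem_powerset] at hw
    have key : ¬ ((∀ c ∈ u \ w, K.Nsep 𝒟 c) ∧ (∀ c ∈ w \ v, K.Nsep 𝒟 c)) := by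
      rintro ⟨h1, h2⟩
      apply hn
      intro c hc
      rw [Finset.mem_sdiff] at hc
      by_cases hcw : c ∈ w
      · exact h2 c (Finset.mem_sdiff.2 ⟨hcw, hc.2⟩)
      · exact h1 c (Finset.mem_sdiff.2 ⟨hc.1, hcw⟩)
    have z1 : ca K s0 u w 𝒟 * cb K w v 𝒟 D = 0 := by
      unfold ca cb
      by_cases h1 : ∀ c ∈ u \ w, K.Nsep 𝒟 c
      · rw [if_neg (c := v ⊆ w ∧ _) (fun h => key ⟨h1, h.2.1⟩), mul_zero]
      · rw [if_neg (c := w ⊆ u ∧ _) (fun h => h1 h.2.1), zero_mul]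
    have z2 : cb K u w 𝒟 D * ca K s0 w v (insert D 𝒟) = 0 := by
      unfold ca cb
      by_cases h1 : ∀ c ∈ u \ w, K.Nsep 𝒟 c
      · rw [if_neg (c := v ⊆ w ∧ _) (fun h => key ⟨h1, fun c hc D' hD' =>
          h.2.1 c hc D' (Finset.mem_insert_of_mem hD')⟩), mul_zero]
      · rw [if_neg (c := w ⊆ u ∧ _) (fun h => h1 h.2.1), zero_mul]
    rw [z1, z2, add_zero]
  rw [Finset.sum_add_distrib]
  have hG : Hom u (u \ v) := fun c hc c' hc' => ⟨fun _ => (Finset.mem_sdiff.1 hc').1,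
      fun _ => (Finset.mem_sdiff.1 hc).1⟩
  have huG : u ∆ (u \ v) = v := by
    rw [sd_of_sub Finset.sdiff_subset, Finset.sdiff_sdiff_eq_self hv]
  have key := hGI u (u \ v) (fun x => if x ∈ D then 1 else 0) hG (by
    rw [huG]
    intro x y hxy
    have := hval.sat D (Finset.mem_insert_self _ _) x y hxy
    by_cases hx : x ∈ D
    · rw [if_pos hx, if_pos (this.1 hx)]
    · rw [if_neg hx, if_neg (fun h => hx (this.2 h))])
  have hgood : ∀ c, ((if K.head c ∈ D then 1 else 0) < (if K.tail c ∈ D then (1 : ℕ) else 0)) ↔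
      (K.tail c ∈ D ∧ K.head c ∉ D) := by
    intro c
    by_cases h1 : K.head c ∈ D <;> by_cases h2 : K.tail c ∈ D <;> simp [h1, h2]
  have heq : ∀ c, ((if K.tail c ∈ D then (1 : ℕ) else 0) = (if K.head c ∈ D then 1 else 0)) ↔
      (K.tail c ∈ D ↔ K.head c ∈ D) := by
    intro c
    by_cases h1 : K.head c ∈ D <;> by_cases h2 : K.tail c ∈ D <;> simp [h1, h2]
  simp only [hgood, heq] at key
  have t1 : ∑ w ∈ u.powerset, ca K s0 u w 𝒟 * cb K w v 𝒟 D =
      ∑ A ∈ (u \ v).powerset, if K.AC s0 u A ∧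
        (∀ c ∈ (u \ v) \ A, K.tail c ∈ D ∧ K.head c ∉ D) ∧
        K.Spl (u ∆ A) ((u \ v) \ A) then (1 : ZMod 2) else 0 := by
    rw [reidx1 hv]
    swap
    · intro w _ hw
      unfold cb
      rw [if_neg (c := v ⊆ w ∧ _) (fun h => hw h.1), mul_zero]
    refine Finset.sum_congr rfl fun A hA => ?_
    rw [Finset.mem_powerset] at hA
    have hAu : A ⊆ u := hA.trans Finset.sdiff_subset
    have e1 : u \ (u \ A) = A := Finset.sdiff_sdiff_eq_self hAu
    have e2 : (u \ A) \ v = (u \ v) \ A := by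
      ext x; simp only [Finset.mem_sdiff]; tauto
    have e3 : v ⊆ u \ A := fun x hx => Finset.mem_sdiff.2 ⟨hv hx, fun h => (Finset.mem_sdiff.1 (hA h)).2 hx⟩
    have e4 : (u \ A) ∆ ((u \ v) \ A) = v := by
      rw [← e2, sd_of_sub Finset.sdiff_subset, Finset.sdiff_sdiff_eq_self e3]
    have n1 : ∀ c ∈ A, K.Nsep 𝒟 c := fun c hc => hn c (hA hc)
    have n2 : ∀ c ∈ (u \ v) \ A, K.Nsep 𝒟 c := fun c hc => hn c (Finset.mem_sdiff.1 hc).1
    unfold ca cb Cube.Spl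
    rw [e1, e2, sd_of_sub hAu, e4]
    by_cases h1 : K.AC s0 u A
    · rw [if_pos ⟨Finset.sdiff_subset, n1, h1⟩, one_mul]
      by_cases h2 : (∀ c ∈ (u \ v) \ A, K.tail c ∈ D ∧ K.head c ∉ D) ∧
        K.num v = K.num (u \ A) + ((u \ v) \ A).card
      · rw [if_pos ⟨e3, n2, h2.2.symm, hD, h2.1⟩, if_pos ⟨h1, h2⟩]
      · rw [if_neg (fun h => h2 ⟨h.2.2.2.2, h.2.2.1.symm⟩), if_neg (fun h => h2 h.2)]
    · rw [if_neg (fun h => h1 h.2.2), zero_mul, if_neg (fun h => h1 h.1)]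
  have t2 : ∑ w ∈ u.powerset, cb K u w 𝒟 D * ca K s0 w v (insert D 𝒟) =
      ∑ A ∈ (u \ v).powerset, if K.AC s0 (u ∆ ((u \ v) \ A)) A ∧
        (∀ c ∈ (u \ v) \ A, K.tail c ∈ D ∧ K.head c ∉ D) ∧
        (∀ c ∈ A, (K.tail c ∈ D ↔ K.head c ∈ D)) ∧
        K.Spl u ((u \ v) \ A) then (1 : ZMod 2) else 0 := by
    rw [reidx2 hv]
    swap
    · intro w _ hw
      unfold ca
      rw [if_neg (c := v ⊆ w ∧ _) (fun h => hw h.1), mul_zero]
    refine Finset.sum_congr rfl fun A hA => ?_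
    rw [Finset.mem_powerset] at hA
    have hAu : A ⊆ u := hA.trans Finset.sdiff_subset
    have hGA : (u \ v) \ A ⊆ u := Finset.sdiff_subset.trans Finset.sdiff_subset
    have e1 : u \ (u \ ((u \ v) \ A)) = (u \ v) \ A := Finset.sdiff_sdiff_eq_self hGA
    have e2 : (u \ ((u \ v) \ A)) \ v = A := by
      ext x
      simp only [Finset.mem_sdiff]
      constructor
      · rintro ⟨⟨h1, h2⟩, h3⟩
        by_contra h4
        exact h2 ⟨⟨h1, h3⟩, h4⟩
      · intro h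
        have := Finset.mem_sdiff.1 (hA h)
        exact ⟨⟨this.1, fun h2 => h2.2 h⟩, this.2⟩
    have e3 : v ⊆ u \ ((u \ v) \ A) := fun x hx =>
      Finset.mem_sdiff.2 ⟨hv hx, fun h => (Finset.mem_sdiff.1 (Finset.mem_sdiff.1 h).1).2 hx⟩
    have n1 : ∀ c ∈ A, K.Nsep 𝒟 c := fun c hc => hn c (hA hc)
    have n2 : ∀ c ∈ (u \ v) \ A, K.Nsep 𝒟 c := fun c hc => hn c (Finset.mem_sdiff.1 hc).1
    unfold ca cb Cube.Spl
    rw [e1, e2, sd_of_sub hGA]
    by_cases h1 : K.AC s0 (u \ ((u \ v) \ A)) A ∧ (∀ c ∈ A, (K.tail c ∈ D ↔ K.head c ∈ D))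
    · have n3 : ∀ c ∈ A, K.Nsep (insert D 𝒟) c := by
        intro c hc D' hD'
        rcases Finset.mem_insert.1 hD' with rfl | hD'
        · exact h1.2 c hc
        · exact n1 c hc D' hD'
      rw [if_pos (c := v ⊆ u \ ((u \ v) \ A) ∧ _) ⟨e3, n3, h1.1⟩, mul_one]
      by_cases h2 : (∀ c ∈ (u \ v) \ A, K.tail c ∈ D ∧ K.head c ∉ D) ∧
          K.num (u \ ((u \ v) \ A)) = K.num u + ((u \ v) \ A).card
      · rw [if_pos ⟨Finset.sdiff_subset, n2, h2.2.symm, hD, h2.1⟩,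
          if_pos ⟨h1.1, h2.1, h1.2, h2.2⟩]
      · rw [if_neg (fun h => h2 ⟨h.2.2.2.2, h.2.2.1.symm⟩),
          if_neg (fun h => h2 ⟨h.2.1, h.2.2.2⟩)]
    · rw [if_neg (c := v ⊆ u \ ((u \ v) \ A) ∧ _), mul_zero, if_neg]
      · rintro ⟨h2, _, h3, _⟩
        exact h1 ⟨h2, h3⟩
      · rintro ⟨_, h2, h3⟩
        exact h1 ⟨h3, fun c hc => h2 c hc D (Finset.mem_insert_self _ _)⟩
  rw [t1, t2, key]
  exact CharTwo.add_self_eq_zero _

/-- joint condition for two successive insertions -/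
def PP (K : Cube X E) (u v : Finset X) (𝒟 : Finset (Finset E)) (D D' : Finset E) : Prop :=
  D ∉ 𝒟 ∧ D' ∉ 𝒟 ∧ D ≠ D' ∧ (∀ c ∈ u \ v, K.Nsep 𝒟 c) ∧ K.num u + (u \ v).card = K.num v ∧
    ∀ c ∈ u \ v, (K.tail c ∈ D ∧ K.head c ∉ D) ∨
      ((K.tail c ∈ D ↔ K.head c ∈ D) ∧ K.tail c ∈ D' ∧ K.head c ∉ D')

theorem PP_symm {u v : Finset X} {𝒟 : Finset (Finset E)} {D D' : Finset E}
    (hc : D ⊆ D' ∨ D' ⊆ D) (h : PP K u v 𝒟 D D') : PP K u v 𝒟 D' D := by
  obtain ⟨h1, h2, h3, h4, h5, h6⟩ := h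
  refine ⟨h2, h1, fun e => h3 e.symm, h4, h5, fun c hcG => ?_⟩
  rcases hc with hc | hc
  · by_cases a1 : K.tail c ∈ D <;> by_cases a2 : K.head c ∈ D <;>
      by_cases a3 : K.tail c ∈ D' <;> by_cases a4 : K.head c ∈ D' <;>
      have := h6 c hcG <;> have b1 := @hc (K.tail c) <;> have b2 := @hc (K.head c) <;> tauto
  · by_cases a1 : K.tail c ∈ D <;> by_cases a2 : K.head c ∈ D <;>
      by_cases a3 : K.tail c ∈ D' <;> by_cases a4 : K.head c ∈ D' <;>
      have := h6 c hcG <;> have b1 := @hc (K.tail c) <;> have b2 := @hc (K.head c) <;> tauto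

open Classical in
theorem part3_coef (hK : K.IsCore) {u v : Finset X} (hv : v ⊆ u)
    (𝒟 : Finset (Finset E)) (D D' : Finset E) :
    ∑ w ∈ u.powerset, cb K u w 𝒟 D * cb K w v (insert D 𝒟) D' =
      if PP K u v 𝒟 D D' then 1 else 0 := by
  set w0 : Finset X := v ∪ (u \ v).filter (fun c => (K.tail c ∈ D ↔ K.head c ∈ D)) with hw0
  have hw0u : w0 ⊆ u := by
    intro x hx
    rw [hw0, Finset.mem_union, Finset.mem_filter, Finset.mem_sdiff] at hx
    rcases hx with h | h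
    · exact hv h
    · exact h.1.1
  have hvw0 : v ⊆ w0 := Finset.subset_union_left
  rw [Finset.sum_eq_single_of_mem w0 (Finset.mem_powerset.2 hw0u)]
  · -- value at w0
    have m1 : ∀ c, c ∈ u \ w0 ↔ c ∈ u \ v ∧ ¬ (K.tail c ∈ D ↔ K.head c ∈ D) := by
      intro c
      rw [hw0]
      simp only [Finset.mem_sdiff, Finset.mem_union, Finset.mem_filter]
      tauto
    have m2 : ∀ c, c ∈ w0 \ v ↔ c ∈ u \ v ∧ (K.tail c ∈ D ↔ K.head c ∈ D) := by
      intro c
      rw [hw0]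
      simp only [Finset.mem_sdiff, Finset.mem_union, Finset.mem_filter]
      tauto
    have hcard : (u \ v).card = (u \ w0).card + (w0 \ v).card := by
      rw [Finset.card_sdiff_of_subset hv, Finset.card_sdiff_of_subset hw0u,
        Finset.card_sdiff_of_subset hvw0]
      have := Finset.card_le_card hw0u
      have := Finset.card_le_card hvw0
      omega
    have i1 : K.num w0 ≤ K.num u + (u \ w0).card := by
      have := B1.num_ge hK w0 (u \ w0)
      rwa [sd_sub hw0u] at this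
    have i2 : K.num v ≤ K.num w0 + (w0 \ v).card := by
      have := B1.num_ge hK v (w0 \ v)
      rwa [sd_sub hvw0] at this
    have hiff : (w0 ⊆ u ∧ (∀ c ∈ u \ w0, K.Nsep 𝒟 c) ∧ K.num u + (u \ w0).card = K.num w0 ∧ D ∉ 𝒟 ∧
        (∀ c ∈ u \ w0, K.tail c ∈ D ∧ K.head c ∉ D)) ∧
        (v ⊆ w0 ∧ (∀ c ∈ w0 \ v, K.Nsep (insert D 𝒟) c) ∧ K.num w0 + (w0 \ v).card = K.num v ∧
          D' ∉ insert D 𝒟 ∧ (∀ c ∈ w0 \ v, K.tail c ∈ D' ∧ K.head c ∉ D')) ↔
        PP K u v 𝒟 D D' := by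
      unfold PP
      constructor
      · rintro ⟨⟨_, a2, a3, a4, a5⟩, ⟨_, b2, b3, b4, b5⟩⟩
        rw [Finset.mem_insert, not_or] at b4
        refine ⟨a4, b4.2, fun e => b4.1 e.symm, ?_, by omega, ?_⟩
        · intro c hc
          by_cases h : (K.tail c ∈ D ↔ K.head c ∈ D)
          · exact fun D'' hD'' => b2 c ((m2 c).2 ⟨hc, h⟩) D'' (Finset.mem_insert_of_mem hD'')
          · exact a2 c ((m1 c).2 ⟨hc, h⟩)
        · intro c hc
          by_cases h : (K.tail c ∈ D ↔ K.head c ∈ D)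
          · exact Or.inr ⟨h, b5 c ((m2 c).2 ⟨hc, h⟩)⟩
          · exact Or.inl (a5 c ((m1 c).2 ⟨hc, h⟩))
      · rintro ⟨a1, a2, a3, a4, a5, a6⟩
        refine ⟨⟨hw0u, fun c hc => a4 c ((m1 c).1 hc).1, by omega, a1, fun c hc => ?_⟩,
          ⟨hvw0, fun c hc => ?_, by omega, ?_, fun c hc => ?_⟩⟩
        · rcases a6 c ((m1 c).1 hc).1 with h | h
          · exact h
          · exact absurd h.1 ((m1 c).1 hc).2
        · intro D'' hD''
          rcases Finset.mem_insert.1 hD'' with rfl | hD''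
          · exact ((m2 c).1 hc).2
          · exact a4 c ((m2 c).1 hc).1 D'' hD''
        · rw [Finset.mem_insert, not_or]
          exact ⟨fun e => a3 e.symm, a2⟩
        · rcases a6 c ((m2 c).1 hc).1 with h | h
          · exact absurd (((m2 c).1 hc).2.1 h.1) h.2
          · exact h.2
    unfold cb
    by_cases h : PP K u v 𝒟 D D'
    · have := hiff.2 h
      rw [if_pos this.1, if_pos this.2, if_pos h, one_mul]
    · rw [if_neg h]
      by_cases h1 : (w0 ⊆ u ∧ (∀ c ∈ u \ w0, K.Nsep 𝒟 c) ∧ K.num u + (u \ w0).card = K.num w0 ∧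
          D ∉ 𝒟 ∧ (∀ c ∈ u \ w0, K.tail c ∈ D ∧ K.head c ∉ D))
      · rw [if_pos h1, one_mul, if_neg (fun h2 => h (hiff.1 ⟨h1, h2⟩))]
      · rw [if_neg h1, zero_mul]
  · intro w hw hne
    by_contra hnz
    apply hne
    have h1 := left_ne_zero_of_mul hnz
    have h2 := right_ne_zero_of_mul hnz
    unfold cb at h1 h2
    split_ifs at h1 with h3
    swap
    · exact absurd rfl h1
    split_ifs at h2 with h4
    swap
    · exact absurd rfl h2
    obtain ⟨a1, a2, a3, a4, a5⟩ := h3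
    obtain ⟨b1, b2, b3, b4, b5⟩ := h4
    ext c
    rw [hw0]
    simp only [Finset.mem_union, Finset.mem_filter, Finset.mem_sdiff]
    constructor
    · intro hc
      by_cases hcv : c ∈ v
      · exact Or.inl hcv
      · exact Or.inr ⟨⟨a1 hc, hcv⟩, b2 c (Finset.mem_sdiff.2 ⟨hc, hcv⟩) D (Finset.mem_insert_self _ _)⟩
    · rintro (hc | ⟨⟨hc1, hc2⟩, hc3⟩)
      · exact b1 hc
      · by_contra hcw
        have := a5 c (Finset.mem_sdiff.2 ⟨hc1, hcw⟩)
        exact this.2 (hc3.1 this.1)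

theorem part3 (hK : K.IsCore) {u v : Finset X} (hv : v ⊆ u)
    (𝒟 : Finset (Finset E)) (ψ : W X E) (hψ : K.Supp ψ) :
    ∑ D : Finset E, ∑ D' : Finset E, (∑ w ∈ u.powerset,
      cb K u w 𝒟 D * cb K w v (insert D 𝒟) D') * ψ v (insert D' (insert D 𝒟)) = 0 := by
  classical
  simp only [part3_coef hK hv]
  rw [← Finset.sum_product' (Finset.univ : Finset (Finset E))
    (Finset.univ : Finset (Finset E)) (fun D D' => (if PP K u v 𝒟 D D' then (1 : ZMod 2) else 0) *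
      ψ v (insert D' (insert D 𝒟)))]
  have hsw : ∀ D D' : Finset E, insert D' (insert D 𝒟) = insert D (insert D' 𝒟) :=
    fun D D' => Finset.insert_comm _ _ _
  have hval : ∀ D D' : Finset E, ψ v (insert D' (insert D 𝒟)) ≠ 0 →
      (PP K u v 𝒟 D D' ↔ PP K u v 𝒟 D' D) := by
    intro D D' h
    have hV := hψ v _ h
    have hc := hV.chain D (Finset.mem_insert_of_mem (Finset.mem_insert_self _ _)) D'
      (Finset.mem_insert_self _ _)
    exact ⟨PP_symm hc, PP_symm hc.symm⟩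
  refine Finset.sum_involution (fun p _ => (p.2, p.1)) ?_ ?_ ?_ ?_
  · rintro ⟨D, D'⟩ _
    simp only
    rw [hsw D D']
    by_cases h : ψ v (insert D (insert D' 𝒟)) = 0
    · rw [h, mul_zero, mul_zero, add_zero]
    · have := hval D' D h
      by_cases h1 : PP K u v 𝒟 D D'
      · rw [if_pos h1, if_pos (this.2 h1)]
        exact CharTwo.add_self_eq_zero _
      · rw [if_neg h1, if_neg (fun h2 => h1 (this.1 h2))]; simp
  · rintro ⟨D, D'⟩ _ hne
    simp only at hne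
    have h1 := left_ne_zero_of_mul hne
    split_ifs at h1 with h2
    · intro e
      simp only [Prod.mk.injEq] at e
      exact h2.2.2.1 e.2
    · exact absurd rfl h1
  · intro p _; exact Finset.mem_product.2 ⟨Finset.mem_univ _, Finset.mem_univ _⟩
  · intro p _; rfl

theorem del_del (hK : K.IsCore) (s0 : Bool) (hGI : K.GIP s0) (hYY : K.YYP s0) (ψ : W X E)
    (h : K.Supp ψ) : K.del s0 (K.del s0 ψ) = 0 := by
  classical
  funext u 𝒟
  have step : ∀ w ∈ u.powerset, ∀ 𝒟' : Finset (Finset E), K.del s0 ψ w 𝒟' =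
      ∑ v ∈ u.powerset, (ca K s0 w v 𝒟' * ψ v 𝒟' +
        ∑ D : Finset E, cb K w v 𝒟' D * ψ v (insert D 𝒟')) := by
    intro w hw 𝒟'
    rw [del_apply]
    exact delF_eq s0 ψ w 𝒟' u.powerset (Finset.powerset_mono.2 (Finset.mem_powerset.1 hw))
  rw [del_apply, delF_eq s0 _ u 𝒟 u.powerset (Finset.Subset.refl _)]
  have e1 : ∀ w ∈ u.powerset, (ca K s0 u w 𝒟 * K.del s0 ψ w 𝒟 +
      ∑ D : Finset E, cb K u w 𝒟 D * K.del s0 ψ w (insert D 𝒟)) =
      ∑ v ∈ u.powerset, ((ca K s0 u w 𝒟 * ca K s0 w v 𝒟) * ψ v 𝒟 +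
        ∑ D : Finset E, (ca K s0 u w 𝒟 * cb K w v 𝒟 D + cb K u w 𝒟 D * ca K s0 w v (insert D 𝒟)) *
          ψ v (insert D 𝒟) +
        ∑ D : Finset E, ∑ D' : Finset E, (cb K u w 𝒟 D * cb K w v (insert D 𝒟) D') *
          ψ v (insert D' (insert D 𝒟))) := by
    intro w hw
    rw [step w hw 𝒟, Finset.mul_sum]
    have : ∑ D : Finset E, cb K u w 𝒟 D * K.del s0 ψ w (insert D 𝒟) =
        ∑ v ∈ u.powerset, ∑ D : Finset E, cb K u w 𝒟 D * (ca K s0 w v (insert D 𝒟) *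
          ψ v (insert D 𝒟) + ∑ D' : Finset E, cb K w v (insert D 𝒟) D' *
            ψ v (insert D' (insert D 𝒟))) := by
      rw [Finset.sum_comm]
      refine Finset.sum_congr rfl fun D _ => ?_
      rw [step w hw, Finset.mul_sum]
    rw [this, ← Finset.sum_add_distrib]
    refine Finset.sum_congr rfl fun v _ => ?_
    simp only [mul_add, add_mul, Finset.mul_sum, Finset.sum_add_distrib, mul_assoc]
    ring
  rw [Finset.sum_congr rfl e1, Finset.sum_comm]
  refine Finset.sum_eq_zero fun v hv => ?_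
  have hv' : v ⊆ u := Finset.mem_powerset.1 hv
  rw [Finset.sum_add_distrib, Finset.sum_add_distrib]
  have z1 : ∑ w ∈ u.powerset, (ca K s0 u w 𝒟 * ca K s0 w v 𝒟) * ψ v 𝒟 = 0 := by
    rw [← Finset.sum_mul, part1 s0 hYY hv', zero_mul]
  have z2 : ∑ w ∈ u.powerset, ∑ D : Finset E, (ca K s0 u w 𝒟 * cb K w v 𝒟 D +
      cb K u w 𝒟 D * ca K s0 w v (insert D 𝒟)) * ψ v (insert D 𝒟) = 0 := by
    rw [Finset.sum_comm]
    refine Finset.sum_eq_zero fun D _ => ?_
    rw [← Finset.sum_mul]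
    by_cases hz : ψ v (insert D 𝒟) = 0
    · rw [hz, mul_zero]
    · rw [part2 s0 hGI hv' 𝒟 D (h v _ hz), zero_mul]
  have z3 : ∑ w ∈ u.powerset, ∑ D : Finset E, ∑ D' : Finset E,
      (cb K u w 𝒟 D * cb K w v (insert D 𝒟) D') * ψ v (insert D' (insert D 𝒟)) = 0 := by
    rw [Finset.sum_comm]
    rw [← part3 hK hv' 𝒟 ψ h]
    refine Finset.sum_congr rfl fun D _ => ?_
    rw [Finset.sum_comm]
    refine Finset.sum_congr rfl fun D' _ => ?_
    rw [Finset.sum_mul]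
  rw [z1, z2, z3, add_zero, add_zero]

end DD
end Pool.Agent.helper20.Sz
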